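import Mathlib
import Pool.Agent.E7c0.Def
import Pool.Agent.E7c0.Fin

set_option autoImplicit false

namespace Pool.Agent.Results.MP_ea7c0e_pr.NotConcaveNearZero

open Pool.Agent.E7c0

/-- For all `d ≥ 2` and `k ≥ 2` the critical curve `q_c` is not concave on `[0, δ]`, however small
`δ > 0` is. -/
theorem result (d k : ℕ) (hd : 2 ≤ d) (hk : 2 ≤ k) (δ : ℝ) (h0 : 0 < δ) (_h1 : δ ≤ 1) :
    ¬ ConcaveOn ℝ (Set.Icc 0 δ) (qc d k) :=
  not_concave hd hk h0

end Pool.Agent.Results.MP_ea7c0e_pr.NotConcaveNearZero
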